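import Pool.Agent.H97.R3.Cases

/-!
# Generators with at most four elements (MP_75f39d): the parts of the strict theorem that do not use the payments
-/

set_option autoImplicit false

namespace Pool.Agent.H4.F4

open Finset Pool.Agent.H97.GEN Pool.Agent.H83.ELZ Pool.Agent.H97.R3

variable {α : Type*} [DecidableEq α]

/-- The hypotheses. -/
structure HF (J P : Finset (Finset α)) : Prop where
  irr : ∀ g ∈ J, g ∉ unions (J.erase g)
  PC : P ⊆ cov J
  comp : ∀ w ∈ cov J, ∀ i ∈ P, ∀ z, z ∈ w → z ∈ i → w ∈ P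
  four : ∀ w ∈ P, w.card ≤ 4
  two : ∀ w ∈ P, ∀ w' ∈ P, w ≠ w' → (w ∩ w').card ≤ 2

section

variable {J P : Finset (Finset α)}

lemma HF.PJ (h : HF J P) {w : Finset α} (hw : w ∈ P) : w ∈ J := (mem_cov.1 (h.PC hw)).1

lemma HF.ne (h : HF J P) {w : Finset α} (hw : w ∈ J) : w.Nonempty := by
  rw [Finset.nonempty_iff_ne_empty]
  rintro rfl
  exact h.irr _ hw (empty_mem _)

/-- A generator has a point that is in no smaller generator. -/
lemma HF.own_pt (h : HF J P) {u : Finset α} (hu : u ∈ J) :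
    ∃ f ∈ u, ∀ g ∈ J, g ⊆ u → f ∈ g → g = u := by
  classical
  by_contra hcon
  push Not at hcon
  apply h.irr u hu
  rw [mem_unions]
  apply Finset.Subset.antisymm (supK_subset _ _)
  intro z hz
  obtain ⟨g, hg, hgu, hzg, hne⟩ := hcon z hz
  exact mem_sup_id.2 ⟨g, mem_K.2 ⟨Finset.mem_erase.2 ⟨hne, hg⟩, hgu⟩, hzg⟩

/-- Small members can be removed. -/
lemma HF.small (h : HF J P) {w : Finset α} (hw : w ∈ P)
    (hz : ∀ z ∈ w, 2 * fr (unions J) z ≤ (unions J).card) (h2 : w.card ≤ 2) {B : Finset α}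
    (hB : B ∈ unions J) (hwB : w ⊆ B) : B \ w ∈ unions J := by
  have hne := h.ne (h.PJ hw)
  have h3 : ∑ B ∈ (unions J).filter (fun B => w ⊆ B), bb J B w ≤ 0 := by
    rw [← sum_group J (h.PJ hw), sum_points]
    refine Finset.sum_nonpos fun z hz' => ?_
    have h1 : (2 * (fr (unions J) z : ℤ)) ≤ (unions J).card := by exact_mod_cast hz z hz'
    linarith
  have h4 : ∀ B ∈ (unions J).filter (fun B => w ⊆ B), 0 ≤ bb J B w := by
    intro B hB
    obtain ⟨hB1, hB2⟩ := Finset.mem_filter.1 hB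
    exact bb_small hB1 hB2 hne h2
  have h3' : ∑ B ∈ (unions J).filter (fun B => w ⊆ B), bb J B w = 0 :=
    le_antisymm h3 (Finset.sum_nonneg h4)
  have h5 := (Finset.sum_eq_zero_iff_of_nonneg h4).1 h3' B (Finset.mem_filter.2 ⟨hB, hwB⟩)
  by_contra hcon
  have h6 := bb_pos hB hwB hne (by omega) hcon
  omega

/-- No member has one point. -/
lemma HF.no_one (h : HF J P)
    (hz : ∀ w ∈ P, ∀ z ∈ w, 2 * fr (unions J) z ≤ (unions J).card)
    {w : Finset α} (hw : w ∈ P) : w.card ≠ 1 := by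
  intro hc
  obtain ⟨x, rfl⟩ := Finset.card_eq_one.1 hc
  have hxJ := h.PJ hw
  obtain ⟨u, hu, hux, hxu⟩ := (mem_cov.1 (h.PC hw)).2 x (Finset.mem_singleton_self x)
  have hsub : ({x} : Finset α) ⊆ u := Finset.singleton_subset_iff.2 hxu
  obtain ⟨f, hf, hfo⟩ := h.own_pt hu
  have hfx : f ∉ ({x} : Finset α) := fun hh => hux (hfo {x} hxJ hsub hh).symm
  have h1 := h.small hw (hz _ hw) (by omega) (self_mem hu) hsub
  obtain ⟨g, hg, hgs, hfg⟩ := (mem_iff h1 f).1 (Finset.mem_sdiff.2 ⟨hf, hfx⟩)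
  have hgu := hfo g hg (hgs.trans Finset.sdiff_subset) hfg
  rw [hgu] at hgs
  exact (Finset.mem_sdiff.1 (hgs hxu)).2 (Finset.mem_singleton_self x)

/-- No member has two points. -/
lemma HF.no_two (h : HF J P)
    (hz : ∀ w ∈ P, ∀ z ∈ w, 2 * fr (unions J) z ≤ (unions J).card)
    {w : Finset α} (hw : w ∈ P) : w.card ≠ 2 := by
  intro hc
  have hwJ := h.PJ hw
  obtain ⟨x, hxw⟩ := h.ne hwJ
  obtain ⟨g, hg, hgw, hxg⟩ := (mem_cov.1 (h.PC hw)).2 x hxw
  have hB : w ∪ g ∈ unions J := union_mem (self_mem hwJ) (self_mem hg)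
  have h1 : (w ∪ g) \ w ∈ unions J :=
    h.small hw (hz w hw) (by omega) hB Finset.subset_union_left
  have e1 : (w ∪ g) \ w = g \ w := Finset.union_sdiff_left w g
  rw [e1] at h1
  -- `g` is a member
  have hgc : g ∈ cov J := by
    refine mem_cov.2 ⟨hg, fun q hq => ?_⟩
    by_cases hqw : q ∈ w
    · exact ⟨w, hwJ, fun hh => hgw hh.symm, hqw⟩
    · obtain ⟨g', hg', hsub, hqg'⟩ := (mem_iff h1 q).1 (Finset.mem_sdiff.2 ⟨hq, hqw⟩)
      refine ⟨g', hg', ?_, hqg'⟩
      rintro rfl
      exact (Finset.mem_sdiff.1 (hsub hxg)).2 hxw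
  have hgP := h.comp g hgc w hw x hxg hxw
  -- `g \ w` is not empty
  have hne : (g \ w).Nonempty := by
    rw [Finset.nonempty_iff_ne_empty]
    intro h0
    have hgsub : g ⊆ w := Finset.sdiff_eq_empty_iff_subset.1 h0
    have hlt : g.card < w.card := Finset.card_lt_card (Finset.ssubset_iff_subset_ne.2 ⟨hgsub, hgw⟩)
    have hpos : 0 < g.card := Finset.card_pos.2 (h.ne hg)
    exact h.no_one hz hgP (by omega)
  obtain ⟨q, hq⟩ := hne
  obtain ⟨k, hk, hks, hqk⟩ := (mem_iff h1 q).1 hq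
  have hkg : k ⊆ g := hks.trans Finset.sdiff_subset
  have hkne : k ≠ g := by
    rintro rfl
    exact (Finset.mem_sdiff.1 (hks hxg)).2 hxw
  have hkc : k ∈ cov J := mem_cov.2 ⟨hk, fun y hy => ⟨g, hg, hkne.symm, hkg hy⟩⟩
  have hkP := h.comp k hkc g hgP q hqk (hkg hqk)
  have hk2 : k.card ≤ 2 := by
    have := h.two k hkP g hgP hkne
    rwa [Finset.inter_eq_left.2 hkg] at this
  have h2 : g \ k ∈ unions J := h.small hkP (hz k hkP) hk2 (self_mem hg) hkg
  apply h.irr g hg
  apply mem_unions_of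
  intro y hy
  by_cases hyw : y ∈ w
  · have hyk : y ∉ k := fun hh => (Finset.mem_sdiff.1 (hks hh)).2 hyw
    obtain ⟨g', hg', hs, hyg'⟩ := (mem_iff h2 y).1 (Finset.mem_sdiff.2 ⟨hy, hyk⟩)
    refine ⟨g', Finset.mem_erase.2 ⟨?_, hg'⟩, hs.trans Finset.sdiff_subset, hyg'⟩
    rintro rfl
    exact (Finset.mem_sdiff.1 (hs (hkg hqk))).2 hqk
  · obtain ⟨g', hg', hs, hyg'⟩ := (mem_iff h1 y).1 (Finset.mem_sdiff.2 ⟨hy, hyw⟩)
    refine ⟨g', Finset.mem_erase.2 ⟨?_, hg'⟩, hs.trans Finset.sdiff_subset, hyg'⟩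
    rintro rfl
    exact (Finset.mem_sdiff.1 (hs hxg)).2 hxw

/-- All members have three or four points. -/
lemma HF.three_le (h : HF J P)
    (hz : ∀ w ∈ P, ∀ z ∈ w, 2 * fr (unions J) z ≤ (unions J).card)
    {w : Finset α} (hw : w ∈ P) : 3 ≤ w.card := by
  have h1 := h.no_one hz hw
  have h2 := h.no_two hz hw
  have h3 : 0 < w.card := Finset.card_pos.2 (h.ne (h.PJ hw))
  omega

/-- No generator is inside a member. -/
lemma HF.no_sub (h : HF J P) (h3 : ∀ w ∈ P, 3 ≤ w.card) {w g : Finset α} (hw : w ∈ P)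
    (hg : g ∈ J) (hgw : g ⊆ w) : g = w := by
  by_contra hne
  have hgc : g ∈ cov J := mem_cov.2 ⟨hg, fun y hy => ⟨w, h.PJ hw, fun hh => hne hh.symm, hgw hy⟩⟩
  obtain ⟨x, hx⟩ := h.ne hg
  have hgP := h.comp g hgc w hw x hx (hgw hx)
  have h1 := h.two g hgP w hw hne
  rw [Finset.inter_eq_left.2 hgw] at h1
  have h2 := h3 g hgP
  omega

/-- `B = w ∪ u` with `w ∈ P`, `u ∈ J` different and meeting, and `B` is smallest. -/
structure MinPair (J P : Finset (Finset α)) (w u B : Finset α) : Prop where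
  hw : w ∈ P
  hu : u ∈ J
  hne : u ≠ w
  meet : ∃ z, z ∈ w ∧ z ∈ u
  hB : B = w ∪ u
  min : ∀ w' ∈ P, ∀ u' ∈ J, u' ≠ w' → (∃ z, z ∈ w' ∧ z ∈ u') → B.card ≤ (w' ∪ u').card

lemma HF.exists_min (h : HF J P) (hP : P.Nonempty) : ∃ w u B, MinPair J P w u B := by
  classical
  obtain ⟨w0, hw0⟩ := hP
  obtain ⟨x, hx⟩ := h.ne (h.PJ hw0)
  obtain ⟨u0, hu0, hne0, hxu0⟩ := (mem_cov.1 (h.PC hw0)).2 x hx
  set S := (P ×ˢ J).filter fun t => t.2 ≠ t.1 ∧ ∃ z, z ∈ t.1 ∧ z ∈ t.2 with hS
  have hne : S.Nonempty :=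
    ⟨(w0, u0), Finset.mem_filter.2 ⟨Finset.mem_product.2 ⟨hw0, hu0⟩, hne0, x, hx, hxu0⟩⟩
  obtain ⟨t, ht, hmin⟩ := Finset.exists_min_image S (fun t => (t.1 ∪ t.2).card) hne
  obtain ⟨ht1, ht2, ht3⟩ := Finset.mem_filter.1 ht
  obtain ⟨ht4, ht5⟩ := Finset.mem_product.1 ht1
  refine ⟨t.1, t.2, t.1 ∪ t.2, ht4, ht5, ht2, ht3, rfl, ?_⟩
  intro w' hw' u' hu' hne' hm'
  exact hmin (w', u')
    (Finset.mem_filter.2 ⟨Finset.mem_product.2 ⟨hw', hu'⟩, hne', hm'⟩)

lemma MinPair.eq {w u B : Finset α} (m : MinPair J P w u B) {w' u' : Finset α} (hw' : w' ∈ P)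
    (hu' : u' ∈ J) (hne : u' ≠ w') (hm : ∃ z, z ∈ w' ∧ z ∈ u') (hsub : w' ∪ u' ⊆ B) :
    w' ∪ u' = B :=
  Finset.eq_of_subset_of_card_le hsub (m.min w' hw' u' hu' hne hm)

/-- No loser at the smallest union. -/
lemma HF.min_no_loser (h : HF J P) (h3 : ∀ w ∈ P, 3 ≤ w.card) {w u B : Finset α}
    (m : MinPair J P w u B) {w' : Finset α} (hw' : w' ∈ P) (hwB : w' ⊆ B)
    (h0 : B \ w' ∈ unions J) {p : α} (hp : p ∈ w') (h1 : (B \ w') ∪ {p} ∈ unions J) : False := by
  obtain ⟨v, hv, hvs, hpv⟩ :=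
    (mem_iff h1 p).1 (Finset.mem_union_right _ (Finset.mem_singleton_self p))
  have hvw : ∀ q ∈ v, q ∈ w' → q = p := by
    intro q hq hqw
    rcases Finset.mem_union.1 (hvs hq) with h' | h'
    · exact absurd hqw (Finset.mem_sdiff.1 h').2
    · exact Finset.mem_singleton.1 h'
  have hvne : v ≠ w' := by
    rintro rfl
    have h4 := h3 v hw'
    have h5 : v ⊆ {p} := fun q hq => Finset.mem_singleton.2 (hvw q hq hq)
    have h6 := Finset.card_le_card h5
    rw [Finset.card_singleton] at h6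
    omega
  have hvB : v ⊆ B := by
    intro q hq
    rcases Finset.mem_union.1 (hvs hq) with h' | h'
    · exact (Finset.mem_sdiff.1 h').1
    · rw [Finset.mem_singleton.1 h']
      exact hwB hp
  have hvc : v ∈ cov J := by
    refine mem_cov.2 ⟨hv, fun q hq => ?_⟩
    rcases Finset.mem_union.1 (hvs hq) with h' | h'
    · obtain ⟨g', hg', hsub, hqg'⟩ := (mem_iff h0 q).1 h'
      refine ⟨g', hg', ?_, hqg'⟩
      rintro rfl
      exact (Finset.mem_sdiff.1 (hsub hpv)).2 hp
    · rw [Finset.mem_singleton.1 h']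
      exact ⟨w', h.PJ hw', hvne.symm, hp⟩
  have hvP := h.comp v hvc w' hw' p hpv hp
  have hun : w' ∪ v = B := m.eq hw' hv hvne ⟨p, hp, hpv⟩ (Finset.union_subset hwB hvB)
  -- a second point of `v`
  have hv3 := h3 v hvP
  obtain ⟨q, hq, hqp⟩ : ∃ q ∈ v, q ≠ p := by
    by_contra hcon
    push Not at hcon
    have h5 : v ⊆ {p} := fun q hq => Finset.mem_singleton.2 (hcon q hq)
    have h6 := Finset.card_le_card h5
    rw [Finset.card_singleton] at h6
    omega
  have hqw : q ∉ w' := fun hh => hqp (hvw q hq hh)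
  obtain ⟨g, hg, hgs, hqg⟩ := (mem_iff h0 q).1 (Finset.mem_sdiff.2 ⟨hvB hq, hqw⟩)
  have hgv : g ⊆ v := by
    intro y hy
    obtain ⟨hyB, hyw⟩ := Finset.mem_sdiff.1 (hgs hy)
    rw [← hun] at hyB
    rcases Finset.mem_union.1 hyB with h' | h'
    · exact absurd h' hyw
    · exact h'
  have := h.no_sub h3 hvP hg hgv
  subst this
  exact (Finset.mem_sdiff.1 (hgs hpv)).2 hp

/-- The value with at most one single is positive. -/
lemma bb_four_pos {B w : Finset α} (hB : B ∈ unions J) (hwB : w ⊆ B) (hc : w.card = 4)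
    (h0 : B \ w ∉ unions J)
    (h1 : ∀ p ∈ w, ∀ q ∈ w, (B \ w) ∪ {p} ∈ unions J → (B \ w) ∪ {q} ∈ unions J → p = q) :
    0 < bb J B w := by
  classical
  set f : Finset α → ℤ := fun T => if (B \ w) ∪ T ∈ unions J then 2 * (T.card : ℤ) - w.card else 0
    with hf
  have hbb : bb J B w = ∑ T ∈ w.powerset, f T := rfl
  have htop : (B \ w) ∪ w ∈ unions J := by
    rw [Finset.sdiff_union_of_subset hwB]
    exact hB
  have hwm : w ∈ w.powerset := Finset.mem_powerset_self w
  have hfw : f w = 4 := by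
    rw [hf]
    simp only
    rw [if_pos htop, hc]
    norm_num
  rw [hbb, ← Finset.add_sum_erase _ _ hwm, hfw]
  -- the other terms
  by_cases hex : ∃ p ∈ w, (B \ w) ∪ {p} ∈ unions J
  · obtain ⟨p, hp, hpm⟩ := hex
    have hpP : ({p} : Finset α) ∈ w.powerset.erase w := by
      refine Finset.mem_erase.2 ⟨?_, Finset.mem_powerset.2 (Finset.singleton_subset_iff.2 hp)⟩
      intro hh
      rw [← hh, Finset.card_singleton] at hc
      omega
    rw [← Finset.add_sum_erase _ _ hpP]
    have hfp : f {p} = -2 := by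
      rw [hf]
      simp only
      rw [if_pos hpm, hc, Finset.card_singleton]
      norm_num
    rw [hfp]
    have hrest : 0 ≤ ∑ T ∈ (w.powerset.erase w).erase {p}, f T := by
      refine Finset.sum_nonneg fun T hT => ?_
      obtain ⟨hTp, hT1⟩ := Finset.mem_erase.1 hT
      obtain ⟨hTw, hT2⟩ := Finset.mem_erase.1 hT1
      rw [Finset.mem_powerset] at hT2
      rw [hf]
      simp only
      split_ifs with hm
      · rw [hc]
        have hT3 : 2 ≤ T.card := by
          by_contra hlt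
          push Not at hlt
          rcases Nat.lt_or_ge T.card 1 with h' | h'
          · have : T = ∅ := Finset.card_eq_zero.1 (by omega)
            rw [this, Finset.union_empty] at hm
            exact h0 hm
          · obtain ⟨q, hq⟩ := Finset.card_eq_one.1 (show T.card = 1 by omega)
            rw [hq] at hm hT2
            have := h1 p hp q (Finset.singleton_subset_iff.1 hT2) hpm hm
            rw [← this] at hq
            exact hTp hq
        have : (2 : ℤ) ≤ T.card := by exact_mod_cast hT3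
        push_cast
        linarith
      · exact le_refl 0
    linarith
  · push Not at hex
    have hrest : 0 ≤ ∑ T ∈ w.powerset.erase w, f T := by
      refine Finset.sum_nonneg fun T hT => ?_
      obtain ⟨hTw, hT2⟩ := Finset.mem_erase.1 hT
      rw [Finset.mem_powerset] at hT2
      rw [hf]
      simp only
      split_ifs with hm
      · rw [hc]
        have hT3 : 2 ≤ T.card := by
          by_contra hlt
          push Not at hlt
          rcases Nat.lt_or_ge T.card 1 with h' | h'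
          · have : T = ∅ := Finset.card_eq_zero.1 (by omega)
            rw [this, Finset.union_empty] at hm
            exact h0 hm
          · obtain ⟨q, hq⟩ := Finset.card_eq_one.1 (show T.card = 1 by omega)
            rw [hq] at hm hT2
            exact hex q (Finset.singleton_subset_iff.1 hT2) hm
        have : (2 : ℤ) ≤ T.card := by exact_mod_cast hT3
        push_cast
        linarith
      · exact le_refl 0
    linarith

/-- Some value at the smallest union is positive. -/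
lemma HF.min_pos (h : HF J P) (h3 : ∀ w ∈ P, 3 ≤ w.card) {w u B : Finset α}
    (m : MinPair J P w u B) : w ⊆ B ∧ 0 < bb J B w := by
  have hwP := m.hw
  have huJ := m.hu
  have hne := m.hne
  obtain ⟨z, hzw, hzu⟩ := m.meet
  have hwB : w ⊆ B := by
    rw [m.hB]
    exact Finset.subset_union_left
  have hBF : B ∈ unions J := by
    rw [m.hB]
    exact union_mem (self_mem (h.PJ hwP)) (self_mem huJ)
  have eB : B \ w = u \ w := by
    rw [m.hB, Finset.union_sdiff_left]
  have hune : (u \ w).Nonempty := by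
    rw [Finset.nonempty_iff_ne_empty]
    intro h0
    exact hne (h.no_sub h3 hwP huJ (Finset.sdiff_eq_empty_iff_subset.1 h0))
  have h0 : B \ w ∉ unions J := by
    intro hm
    rw [eB] at hm
    by_cases huc : u ∈ cov J
    · have huP := h.comp u huc w hwP z hzu hzw
      obtain ⟨q, hq⟩ := hune
      obtain ⟨g, hg, hgs, hqg⟩ := (mem_iff hm q).1 hq
      have := h.no_sub h3 huP hg (hgs.trans Finset.sdiff_subset)
      subst this
      exact (Finset.mem_sdiff.1 (hgs hzu)).2 hzw
    · apply huc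
      refine mem_cov.2 ⟨huJ, fun q hq => ?_⟩
      by_cases hqw : q ∈ w
      · exact ⟨w, h.PJ hwP, hne.symm, hqw⟩
      · obtain ⟨g, hg, hgs, hqg⟩ := (mem_iff hm q).1 (Finset.mem_sdiff.2 ⟨hq, hqw⟩)
        refine ⟨g, hg, ?_, hqg⟩
        rintro rfl
        exact (Finset.mem_sdiff.1 (hgs hzu)).2 hzw
  refine ⟨hwB, ?_⟩
  have h3w := h3 w hwP
  have h4w := h.four w hwP
  rcases Nat.lt_or_ge w.card 4 with hlt | hge
  · exact bb_pos hBF hwB (h.ne (h.PJ hwP)) (by omega) h0
  have hc : w.card = 4 := by omega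
  apply bb_four_pos hBF hwB hc h0
  intro p hp q hq hpm hqm
  by_contra hpq
  -- the generators through `p` and `q`
  have key : ∀ y ∈ w, (B \ w) ∪ {y} ∈ unions J → (B \ w) ∪ {y} ∈ J := by
    intro y hy hym
    obtain ⟨g, hg, hgs, hyg⟩ :=
      (mem_iff hym y).1 (Finset.mem_union_right _ (Finset.mem_singleton_self y))
    have hgw : ∀ t ∈ g, t ∈ w → t = y := by
      intro t ht htw
      rcases Finset.mem_union.1 (hgs ht) with h' | h'
      · exact absurd htw (Finset.mem_sdiff.1 h').2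
      · exact Finset.mem_singleton.1 h'
    have hgne : g ≠ w := by
      rintro rfl
      have h5 : g ⊆ {y} := fun t ht => Finset.mem_singleton.2 (hgw t ht ht)
      have h6 := Finset.card_le_card h5
      rw [Finset.card_singleton] at h6
      omega
    have hgB : g ⊆ B := by
      intro t ht
      rcases Finset.mem_union.1 (hgs ht) with h' | h'
      · exact (Finset.mem_sdiff.1 h').1
      · rw [Finset.mem_singleton.1 h']
        exact hwB hy
    have hun : w ∪ g = B := m.eq hwP hg hgne ⟨y, hy, hyg⟩ (Finset.union_subset hwB hgB)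
    have hge : g = (B \ w) ∪ {y} := by
      apply Finset.Subset.antisymm hgs
      intro t ht
      rcases Finset.mem_union.1 ht with h' | h'
      · obtain ⟨htB, htw⟩ := Finset.mem_sdiff.1 h'
        rw [← hun] at htB
        rcases Finset.mem_union.1 htB with h'' | h''
        · exact absurd h'' htw
        · exact h''
      · rw [Finset.mem_singleton.1 h']
        exact hyg
    rw [← hge]
    exact hg
  have hg1 := key p hp hpm
  have hg2 := key q hq hqm
  have hp2 : p ∉ (B \ w) ∪ {q} := by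
    intro hh
    rcases Finset.mem_union.1 hh with h' | h'
    · exact (Finset.mem_sdiff.1 h').2 hp
    · exact hpq (Finset.mem_singleton.1 h')
  have hg12 : (B \ w) ∪ {q} ≠ (B \ w) ∪ {p} := by
    intro hh
    apply hp2
    rw [hh]
    exact Finset.mem_union_right _ (Finset.mem_singleton_self p)
  have hwne : w ≠ (B \ w) ∪ {p} := by
    intro hh
    have hqw : q ∈ (B \ w) ∪ {p} := by
      rw [← hh]
      exact hq
    rcases Finset.mem_union.1 hqw with h' | h'
    · exact (Finset.mem_sdiff.1 h').2 hq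
    · exact hpq (Finset.mem_singleton.1 h').symm
  have hc1 : (B \ w) ∪ {p} ∈ cov J := by
    refine mem_cov.2 ⟨hg1, fun t ht => ?_⟩
    rcases Finset.mem_union.1 ht with h' | h'
    · exact ⟨(B \ w) ∪ {q}, hg2, hg12, Finset.mem_union_left _ h'⟩
    · rw [Finset.mem_singleton.1 h']
      exact ⟨w, h.PJ hwP, hwne, hp⟩
  have hP1 := h.comp _ hc1 w hwP p (Finset.mem_union_right _ (Finset.mem_singleton_self p)) hp
  obtain ⟨t, ht⟩ := hune
  rw [← eB] at ht
  have hun : ((B \ w) ∪ {p}) ∪ ((B \ w) ∪ {q}) = B := by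
    apply m.eq hP1 hg2 hg12 ⟨t, Finset.mem_union_left _ ht, Finset.mem_union_left _ ht⟩
    intro y hy
    rcases Finset.mem_union.1 hy with h' | h' <;> rcases Finset.mem_union.1 h' with h'' | h''
    · exact (Finset.mem_sdiff.1 h'').1
    · rw [Finset.mem_singleton.1 h'']
      exact hwB hp
    · exact (Finset.mem_sdiff.1 h'').1
    · rw [Finset.mem_singleton.1 h'']
      exact hwB hq
  have hsub : w ⊆ {p, q} := by
    intro y hy
    have hyB := hwB hy
    rw [← hun] at hyB
    rw [Finset.mem_insert, Finset.mem_singleton]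
    rcases Finset.mem_union.1 hyB with h' | h' <;> rcases Finset.mem_union.1 h' with h'' | h''
    · exact absurd hy (Finset.mem_sdiff.1 h'').2
    · exact Or.inl (Finset.mem_singleton.1 h'')
    · exact absurd hy (Finset.mem_sdiff.1 h'').2
    · exact Or.inr (Finset.mem_singleton.1 h'')
  have h5 := Finset.card_le_card hsub
  have h6 : ({p, q} : Finset α).card ≤ 2 := Finset.card_le_two
  omega

end

end Pool.Agent.H4.F4
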